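import Mathlib

set_option autoImplicit false

namespace Pool.Agent.Results.MP_6cbd0e_co.SmallSumFree

/-- `A` is sum-free: there are no `a₁, a₂, a₃ ∈ A` with `a₁ + a₂ = a₃`. -/
def SumFree {r : ℕ} (A : Finset (Fin r → ZMod 2)) : Prop :=
  ∀ a₁ ∈ A, ∀ a₂ ∈ A, ∀ a₃ ∈ A, a₁ + a₂ ≠ a₃

/-- `A` is a maximal sum-free set. -/
def MaximalSumFree {r : ℕ} (A : Finset (Fin r → ZMod 2)) : Prop :=
  SumFree A ∧ ∀ g, g ∉ A → ¬ SumFree (insert g A)

/-- `M(Z_2^r)`: the smallest size of a maximal sum-free set. -/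
noncomputable def M (r : ℕ) : ℕ :=
  sInf {k | ∃ A : Finset (Fin r → ZMod 2), MaximalSumFree A ∧ A.card = k}

/-- the vector with the binary digits of `n` -/
def enc (r n : ℕ) : Fin r → ZMod 2 := fun i => if n.testBit i then 1 else 0

lemma enc_xor (r a b : ℕ) : enc r (a ^^^ b) = enc r a + enc r b := by
  funext i
  simp only [enc, Pi.add_apply, Nat.testBit_xor]
  rcases Bool.eq_false_or_eq_true (a.testBit i) with h | h <;>
    rcases Bool.eq_false_or_eq_true (b.testBit i) with h' | h' <;> simp [h, h'] <;> decide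

lemma enc_inj {r a b : ℕ} (ha : a < 2 ^ r) (hb : b < 2 ^ r) (h : enc r a = enc r b) : a = b := by
  apply Nat.eq_of_testBit_eq
  intro i
  by_cases hi : i < r
  · have h1 := congrFun h ⟨i, hi⟩
    simp only [enc] at h1
    rcases Bool.eq_false_or_eq_true (a.testBit i) with h2 | h2 <;>
      rcases Bool.eq_false_or_eq_true (b.testBit i) with h3 | h3 <;> simp_all
  · have hi' : r ≤ i := not_lt.mp hi
    rw [Nat.testBit_lt_two_pow (lt_of_lt_of_le ha (Nat.pow_le_pow_right (by norm_num) hi')),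
      Nat.testBit_lt_two_pow (lt_of_lt_of_le hb (Nat.pow_le_pow_right (by norm_num) hi'))]

lemma enc_surj (r : ℕ) (g : Fin r → ZMod 2) : ∃ n < 2 ^ r, enc r n = g := by
  have hinj : Function.Injective (fun n : Fin (2 ^ r) => enc r n) := fun a b h =>
    Fin.ext (enc_inj a.2 b.2 h)
  have hcard : Fintype.card (Fin (2 ^ r)) = Fintype.card (Fin r → ZMod 2) := by
    simp [ZMod.card]
  have hs := ((Fintype.bijective_iff_injective_and_card _).mpr ⟨hinj, hcard⟩).2
  obtain ⟨n, hn⟩ := hs g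
  exact ⟨n, n.2, hn⟩

/-- the set coded by a list of numbers -/
def toSet (r : ℕ) (L : List ℕ) : Finset (Fin r → ZMod 2) := (L.map (enc r)).toFinset

lemma mem_toSet {r : ℕ} {L : List ℕ} {g : Fin r → ZMod 2} : g ∈ toSet r L ↔ ∃ n ∈ L, enc r n = g := by
  simp [toSet]

lemma maximal_of_check {r : ℕ} {L : List ℕ} {mask : ℕ} (h0 : ∀ n ∈ L, n < 2 ^ r)
    (hm : ∀ n < 2 ^ r, mask.testBit n = true ↔ n ∈ L)
    (h1 : ∀ a ∈ L, ∀ b ∈ L, mask.testBit (a ^^^ b) = false)
    (h2 : ∀ n < 2 ^ r, mask.testBit n = true ∨ ∃ a ∈ L, mask.testBit (n ^^^ a) = true) :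
    MaximalSumFree (toSet r L) := by
  have hxor : ∀ a < 2 ^ r, ∀ b < 2 ^ r, a ^^^ b < 2 ^ r := fun a ha b hb => Nat.xor_lt_two_pow ha hb
  constructor
  · intro a₁ ha₁ a₂ ha₂ a₃ ha₃ h
    obtain ⟨a, ha, rfl⟩ := mem_toSet.mp ha₁
    obtain ⟨b, hb, rfl⟩ := mem_toSet.mp ha₂
    obtain ⟨c, hc, rfl⟩ := mem_toSet.mp ha₃
    rw [← enc_xor] at h
    have h3 := enc_inj (hxor a (h0 a ha) b (h0 b hb)) (h0 c hc) h
    have h4 := h1 a ha b hb
    rw [h3, (hm c (h0 c hc)).mpr hc] at h4
    exact Bool.noConfusion h4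
  · intro g hg hsf
    obtain ⟨n, hn, rfl⟩ := enc_surj r g
    rcases h2 n hn with h3 | ⟨a, ha, h3⟩
    · exact hg (mem_toSet.mpr ⟨n, (hm n hn).mp h3, rfl⟩)
    · have h4 : n ^^^ a ∈ L := (hm _ (hxor n hn a (h0 a ha))).mp h3
      refine hsf (enc r (n ^^^ a)) (Finset.mem_insert_of_mem (mem_toSet.mpr ⟨_, h4, rfl⟩)) (enc r a)
        (Finset.mem_insert_of_mem (mem_toSet.mpr ⟨a, ha, rfl⟩)) (enc r n)
        (Finset.mem_insert_self _ _) ?_
      rw [← enc_xor, Nat.xor_assoc, Nat.xor_self, Nat.xor_zero]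

/-- a maximal sum-free set of size `28` in `Z_2^8` -/
def L8 : List ℕ := [162, 103, 176, 11, 208, 56, 49, 123, 94, 139, 126, 31, 157, 55, 224, 193, 89, 93,
  138, 160, 184, 13, 218, 72, 19, 140, 68, 182]

/-- a maximal sum-free set of size `42` in `Z_2^9` -/
def L9 : List ℕ := [5, 8, 17, 23, 41, 48, 60, 63, 80, 132, 159, 162, 164, 166, 185, 186, 196, 208,
  215, 222, 229, 245, 272, 294, 315, 334, 344, 354, 367, 402, 403, 408, 417, 421, 439, 446, 464,
  466, 473, 477, 483, 499]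

def mask8 : ℕ := 27381607222549148013021407693502932895135345552105399884745758222336

def mask9 : ℕ := 1636720692781873498093642309269997591798905783822829456625592777505676695679474128447076566647566981609052888981163255682454073392642959900032779813152

lemma max8 : MaximalSumFree (toSet 8 L8) := by
  apply maximal_of_check (mask := mask8)
  · decide +kernel
  · decide +kernel
  · decide +kernel
  · decide +kernel

lemma max9 : MaximalSumFree (toSet 9 L9) := by
  apply maximal_of_check (mask := mask9)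
  · decide +kernel
  · decide +kernel
  · decide +kernel
  · decide +kernel

lemma M_le {r : ℕ} {L : List ℕ} (h : MaximalSumFree (toSet r L)) : M r ≤ L.length := by
  have h1 : M r ≤ (toSet r L).card := Nat.sInf_le ⟨_, h, rfl⟩
  refine h1.trans ((List.toFinset_card_le _).trans ?_)
  rw [List.length_map]

/-- The smallest maximal sum-free sets of `Z_2^8` and `Z_2^9` have at most `28 < 29` and
`42 < 45` elements; so the formula for `M(Z_2^r)` in Q1 is not true for every `r ≥ 4`. -/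
theorem result : M 8 ≤ 28 ∧ M 9 ≤ 42 ∧
    ¬ (∀ r : ℕ, 4 ≤ r → M r = 2 ^ ((r + 1) / 2) + 2 ^ (r / 2) - 3) := by
  have h8 : M 8 ≤ 28 := M_le max8
  refine ⟨h8, M_le max9, fun h => ?_⟩
  have := h 8 (by norm_num)
  norm_num at this
  omega

end Pool.Agent.Results.MP_6cbd0e_co.SmallSumFree
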